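import Mathlib
import Pool.Agent.Lib_helper91.TriSum

set_option autoImplicit false

namespace Pool.Agent.Results.MP_175962_nt.Converges

open Pool.Agent.Lib_helper91

/-- Let `T(i) = i (i + 1) / 2` and let `μ` be the Moebius function of the positive integers ordered
by `d ⪯ n ↔ T(d) ∣ T(n)`, taken from the bottom element `1`, that is `μ 1 = 1` and the sum of `μ d`
over `d ⪯ n` vanishes for every `n ≥ 2`. Then the series of `μ i / T(i)` converges absolutely, and
its partial sums tend to a finite real limit `D`. -/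
theorem result (μ : ℕ → ℤ) (_h1 : μ 1 = 1)
    (hμ : ∀ n : ℕ, 2 ≤ n →
      ∑ d ∈ (Finset.Icc 1 n).filter (fun d : ℕ => d * (d + 1) / 2 ∣ n * (n + 1) / 2), μ d = 0) :
    Summable (fun i : ℕ => |(μ i : ℝ)| / ((i * (i + 1) / 2 : ℕ) : ℝ)) ∧
    ∃ D : ℝ, Filter.Tendsto
      (fun n : ℕ => ∑ i ∈ Finset.Icc 1 n, (μ i : ℝ) / ((i * (i + 1) / 2 : ℕ) : ℝ))
      Filter.atTop (nhds D) := by
  have hrec : ∀ n, 2 ≤ n → |(μ n : ℝ)| ≤ ∑ d ∈ pre n, |(μ d : ℝ)| := by
    intro n hn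
    have h := hμ n hn
    have hset : (Finset.Icc 1 n).filter (fun d : ℕ => d * (d + 1) / 2 ∣ n * (n + 1) / 2) =
        insert n (pre n) := by
      ext d
      rw [Finset.mem_filter, Finset.mem_Icc, Finset.mem_insert, mem_pre]
      constructor
      · rintro ⟨⟨h1, h2⟩, h3⟩
        rcases Nat.lt_or_ge d n with hlt | hge
        · exact Or.inr ⟨⟨h1, hlt⟩, h3⟩
        · exact Or.inl (by omega)
      · rintro (rfl | ⟨⟨h1, h2⟩, h3⟩)
        · exact ⟨⟨by omega, le_rfl⟩, dvd_rfl⟩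
        · exact ⟨⟨h1, h2.le⟩, h3⟩
    have hnot : n ∉ pre n := by
      rw [mem_pre]; omega
    rw [hset, Finset.sum_insert hnot] at h
    have h2 : (μ n : ℝ) = -∑ d ∈ pre n, (μ d : ℝ) := by
      have h3 : μ n = -∑ d ∈ pre n, μ d := by linarith
      rw [h3]; push_cast; rfl
    rw [h2, abs_neg]
    exact Finset.abs_sum_le_sum_abs _ _
  have hsum : Summable (fun i : ℕ => |(μ i : ℝ)| / ((i * (i + 1) / 2 : ℕ) : ℝ)) :=
    summable_main (a := fun n => |(μ n : ℝ)|) (fun n => abs_nonneg _) hrec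
  refine ⟨hsum, ?_⟩
  have hsum' : Summable (fun i : ℕ => (μ i : ℝ) / ((i * (i + 1) / 2 : ℕ) : ℝ)) := by
    apply Summable.of_norm
    refine hsum.congr ?_
    intro i
    rw [Real.norm_eq_abs, abs_div, abs_of_nonneg (Nat.cast_nonneg ((i * (i + 1) / 2 : ℕ)) :
      (0 : ℝ) ≤ ((i * (i + 1) / 2 : ℕ) : ℝ))]
  refine ⟨∑' i : ℕ, (μ i : ℝ) / ((i * (i + 1) / 2 : ℕ) : ℝ), ?_⟩
  have ht := hsum'.hasSum.tendsto_sum_nat
  have ht' := (Filter.tendsto_add_atTop_iff_nat 1).mpr ht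
  refine ht'.congr ?_
  intro n
  have hr : Finset.range (n + 1) = insert 0 (Finset.Icc 1 n) := by
    ext x; simp only [Finset.mem_range, Finset.mem_insert, Finset.mem_Icc]; omega
  rw [hr, Finset.sum_insert (by simp)]
  simp

end Pool.Agent.Results.MP_175962_nt.Converges
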